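import Mathlib

set_option autoImplicit false

namespace Pool.Agent.Results.MP_49446c_co.Proof

open MeasureTheory BoundedContinuousFunction Filter Topology ComplexConjugate

variable {G : Type} [AddCommGroup G] [TopologicalSpace G] [DiscreteTopology G]

/-- The dual group. -/
abbrev Dual (G : Type) [AddCommGroup G] [TopologicalSpace G] := PontryaginDual (Multiplicative G)

noncomputable instance : MeasurableSpace (Dual G) := borel _

/-- The value of a character. -/
noncomputable def ev (χ : Dual G) (g : G) : ℂ := χ (.ofAdd g)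

/-- A positive normalised functional on bounded functions. -/
def IsMean (m : (G →ᵇ ℝ) →ₗ[ℝ] ℝ) : Prop := (∀ f, 0 ≤ f → 0 ≤ m f) ∧ m 1 = 1

def IsInvariant (m : (G →ᵇ ℝ) →ₗ[ℝ] ℝ) : Prop :=
  ∀ (f f' : G →ᵇ ℝ) (g : G), (∀ x, f' x = f (x + g)) → m f' = m f

/-- The indicator function of a set. -/
noncomputable def ind (S : Set G) : G →ᵇ ℝ :=
  ofNormedAddCommGroupDiscrete (S.indicator 1) 1 fun x => by
    simpa using norm_indicator_le_norm_self (s := S) (1 : G → ℝ) x

/-- Upper Banach density. -/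
noncomputable def dstar (A : Set G) : ℝ := sSup {r | ∃ m, IsMean m ∧ IsInvariant m ∧ r = m (ind A)}

def IsBohr (B : Set G) : Prop :=
  ∃ (F : Finset (Dual G)) (ε : ℝ), 0 < ε ∧ B = {g | ∀ χ ∈ F, ‖ev χ g - 1‖ < ε}

/-- `S` meets every almost Bohr set. -/
def Expanding (S : Set G) : Prop := ∀ B E, IsBohr B → dstar E = 0 → (S ∩ (B \ E)).Nonempty

/-- Fourier transform of a measure on the dual group. -/
noncomputable def hat (μ : Measure (Dual G)) (g : G) : ℂ := ∫ χ, conj (ev χ g) ∂μ

def IsKMF (m : (G →ᵇ ℝ) →ₗ[ℝ] ℝ) : Prop :=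
  IsMean m ∧ (∀ (μ : Measure (Dual G)) [IsFiniteMeasure μ] [μ.Regular] [NullSingletonClass μ]
    (f : G →ᵇ ℝ), (∀ g, f g = ‖hat μ g‖) → m f = 0) ∧ ∀ B, IsBohr B → 0 < m (ind B)

instance : BorelSpace (Dual G) := ⟨rfl⟩

omit [AddCommGroup G] [DiscreteTopology G] in
theorem IsMean.mono {m : (G →ᵇ ℝ) →ₗ[ℝ] ℝ} (h : IsMean m) {f g : G →ᵇ ℝ} (hfg : ∀ x, f x ≤ g x) :
    m f ≤ m g := by
  have := h.1 (g - f) fun x => by simpa using hfg x
  rwa [map_sub, sub_nonneg] at this

omit [AddCommGroup G] [DiscreteTopology G] in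
theorem IsMean.le {m : (G →ᵇ ℝ) →ₗ[ℝ] ℝ} (h : IsMean m) {f : G →ᵇ ℝ} {c : ℝ} (hf : ∀ x, f x ≤ c) :
    m f ≤ c := by
  simpa [h.2] using h.mono (f := f) (g := c • 1) (by simpa using hf)

noncomputable def η (g : G) (z : Dual G × Dual G) : ℂ := conj (ev z.1 g) * ev z.2 g

omit [DiscreteTopology G] in
theorem norm_η (g : G) (z : Dual G × Dual G) : ‖η g z‖ = 1 := by
  simp only [η, ev, norm_mul, Complex.norm_conj, Circle.norm_coe, mul_one]

theorem ev_cont (g : G) : Continuous fun χ : Dual G => ev χ g :=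
  continuous_subtype_val.comp ((continuous_apply _).comp
    (ContinuousMonoidHom.isClosedEmbedding_coe (A := Multiplicative G) (B := Circle)).continuous)

theorem η_meas (g : G) : Measurable (η g) :=
  ((Complex.continuous_conj.comp (ev_cont g)).measurable.comp measurable_fst).mul
    ((ev_cont g).measurable.comp measurable_snd)

theorem small (μ : Measure (Dual G)) [IsFiniteMeasure μ] [μ.Regular] [NullSingletonClass μ]
    {ε : ENNReal} (hε : 0 < ε) :
    ∃ H : Finset G, μ.prod μ {z | ∀ h ∈ H, η h z = 1} ≤ ε * μ Set.univ := by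
  classical
  have h1 : ∀ χ : Dual G, ∃ (I : Finset G) (V : Set (Dual G)), V ∈ 𝓝 χ ∧ μ V ≤ ε ∧
      ∀ a ∈ V, ∀ b, (∀ h ∈ I, η h (a, b) = 1) → b ∈ V := fun χ => by
    obtain ⟨U, h1, h2, h3⟩ := Set.exists_isOpen_lt_of_lt {χ} ε (by simpa using hε : μ {χ} < ε)
    have h4 := (ContinuousMonoidHom.isClosedEmbedding_coe (A := Multiplicative G)
      (B := Circle)).isInducing
    obtain ⟨W, h5, h6⟩ := mem_comap.mp ((h4.nhds_eq_comap χ).ge (h2.mem_nhds (h1 rfl)))
    rw [nhds_pi] at h5
    obtain ⟨I, h7, t, h8, h9⟩ := mem_pi.mp h5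
    refine ⟨h7.toFinset, _, h4.continuous.continuousAt (set_pi_mem_nhds h7 fun i _ => h8 i),
      (measure_mono fun a ha => h6 (h9 ha)).trans h3.le, fun a ha b hb i hi => ?_⟩
    have h10 := congrArg (ev a i * ·) (hb i (h7.mem_toFinset.mpr hi))
    simp only [η, ← mul_assoc, Complex.mul_conj, mul_one, ev, Circle.normSq_coe,
      Complex.ofReal_one, one_mul] at h10
    exact (Circle.ext h10 : b i = a i) ▸ ha i hi
  choose I V h1 h2 h3 using h1
  obtain ⟨t, ht⟩ := CompactSpace.elim_nhds_subcover V h1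
  refine ⟨t.biUnion I, ?_⟩
  rw [Measure.prod_apply (by
    simp only [Set.ofPred_forall]
    exact Finset.measurableSet_biInter _ fun h _ => η_meas h (measurableSet_singleton 1)),
    ← lintegral_const]
  refine lintegral_mono fun a => ?_
  obtain ⟨χ, h4, h5⟩ := Set.mem_iUnion₂.mp (ht.ge (Set.mem_univ a))
  refine le_trans (measure_mono fun b hb => ?_) (h2 χ)
  exact h3 χ a h5 b fun h hh => hb h (Finset.mem_biUnion.mpr ⟨χ, h4, hh⟩)

theorem wiener {m : (G →ᵇ ℝ) →ₗ[ℝ] ℝ} (h1 : IsMean m) (h2 : IsInvariant m) (μ : Measure (Dual G))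
    [IsFiniteMeasure μ] [μ.Regular] [NullSingletonClass μ] (f : G →ᵇ ℝ)
    (hf : ∀ g, f g = ‖hat μ g‖) : m f = 0 := by
  let good : (Dual G × Dual G → ℂ) → Prop := fun K => Measurable K ∧ (∀ z, ‖K z‖ ≤ 1) ∧
    ∃ φ : G →ᵇ ℝ, (∀ g, φ g = (∫ z, K z * η g z ∂μ.prod μ).re) ∧ m φ = m (f * f)
  have h3 : good 1 := ⟨measurable_const, by simp, f * f, fun g => by
    have := integral_prod_mul (μ := μ) (ν := μ) (fun χ => conj (ev χ g)) fun χ => ev χ g
    simp only [Pi.one_apply, one_mul, η, this]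
    rw [← Complex.conj_conj (∫ χ, ev χ g ∂μ), ← integral_conj, ← hat, Complex.mul_conj, mul_apply, hf,
      Complex.ofReal_re, Complex.normSq_eq_norm_sq, sq], rfl⟩
  have h4 : ∀ K h, good K → good fun z => K z * ((1 + η h z) / 2) := by
    rintro K h ⟨h4, h5, φ, h6, h7⟩
    let φ' := φ.compContinuous ⟨(· + h), continuous_of_discreteTopology⟩
    refine ⟨h4.mul ((measurable_const.add (η_meas h)).div_const 2), fun z => ?_,
      (1 / 2 : ℝ) • (φ + φ'), fun g => ?_, ?_⟩
    · rw [norm_mul, norm_div]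
      refine mul_le_one₀ (h5 z) (by positivity) ((div_le_one (by simp)).mpr ?_)
      simpa [norm_η, one_add_one_eq_two] using norm_add_le 1 (η h z)
    · have h8 : ∀ g, Integrable (fun z => K z * η g z) (μ.prod μ) := fun g =>
        .of_bound (h4.mul (η_meas g)).aestronglyMeasurable 1
          (.of_forall fun z => by simpa [norm_η] using h5 z)
      have h9 : ∀ z, K z * ((1 + η h z) / 2) * η g z =
          (1 / 2 : ℝ) • (K z * η g z + K z * η (g + h) z) := fun z => by
        simp only [η, ev, ofAdd_add, map_mul, Circle.coe_mul, Complex.real_smul]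
        push_cast
        ring
      simp only [h9]
      rw [integral_smul, integral_add (h8 _) (h8 _)]
      simp [φ', h6]
    · rw [map_smul, map_add, h2 φ φ' h fun _ => rfl, h7, smul_eq_mul]
      ring
  have h5 : ∀ (H : Finset G) K, good K → good fun z => K z * ∏ h ∈ H, ((1 + η h z) / 2) :=
    fun H => by
      classical
      induction H using Finset.induction_on with
      | empty => simp
      | insert a H ha ih =>
        intro K hK
        simpa only [Finset.prod_insert ha, mul_assoc] using ih _ (h4 K a hK)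
  have h6 : ∀ (H : Finset G) (n : ℕ), good fun z => (∏ h ∈ H, ((1 + η h z) / 2)) ^ n :=
    fun H n => by
      induction n with
      | zero => simp only [pow_zero]; exact h3
      | succ n ih => simpa only [pow_succ] using h5 H _ ih
  have h7 : ∀ H : Finset G, m (f * f) ≤ (μ.prod μ).real {z | ∀ h ∈ H, η h z = 1} := fun H => by
    rw [← integral_indicator_one (by
      simp only [Set.ofPred_forall]
      exact Finset.measurableSet_biInter _ fun h _ => η_meas h (measurableSet_singleton 1))]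
    refine ge_of_tendsto' (tendsto_integral_of_dominated_convergence (fun _ => 1)
      (fun n => (h6 H n).1.norm.aestronglyMeasurable) (integrable_const _)
      (fun n => .of_forall fun z => by simpa using (h6 H n).2.1 z) (.of_forall fun z => ?_))
      fun n => ?_
    · by_cases hz : ∀ h ∈ H, η h z = 1
      · rw [Set.indicator_of_mem (s := {z | ∀ h ∈ H, η h z = 1}) hz,
          Finset.prod_eq_one fun h hh => by rw [hz h hh]; norm_num]
        simp
      · rw [Set.indicator_of_notMem (s := {z | ∀ h ∈ H, η h z = 1}) hz,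
          ← tendsto_zero_iff_norm_tendsto_zero]
        refine tendsto_pow_atTop_nhds_zero_of_norm_lt_one ?_
        push Not at hz
        obtain ⟨h, h8, h9⟩ := hz
        classical
        have h10 := (h6 (H.erase h) 1).2.1 z
        rw [← Finset.mul_prod_erase _ _ h8, norm_mul]
        refine mul_lt_one_of_nonneg_of_lt_one_left (norm_nonneg _) ?_ (by simpa using h10)
        rw [norm_div, div_lt_one (by simp)]
        simpa using (norm_add_lt_of_not_sameRay (x := (1 : ℂ)) (y := η h z) fun h => h9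
          (h.eq_of_norm_eq (by simp [norm_η])).symm).trans_eq (by simp [norm_η]; norm_num)
    · obtain ⟨-, -, φ, h8, h9⟩ := h6 H n
      refine h9 ▸ h1.le fun g => ?_
      rw [h8]
      refine (Complex.re_le_norm _).trans ((norm_integral_le_integral_norm _).trans_eq ?_)
      simp [norm_η]
  have h8 : m (f * f) ≤ 0 := le_of_forall_pos_le_add fun ε hε => by
    obtain ⟨H, hH⟩ := small μ (ε := .ofReal (ε / (μ.real Set.univ + 1)))
      (ENNReal.ofReal_pos.mpr (by positivity))
    refine (h7 H).trans ((ENNReal.toReal_mono (by finiteness) hH).trans ?_)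
    rw [ENNReal.toReal_mul, ENNReal.toReal_ofReal (by positivity), zero_add, ← measureReal_def,
      div_mul_eq_mul_div, div_le_iff₀ (by positivity)]
    nlinarith
  refine le_antisymm (le_of_forall_pos_le_add fun ε hε => ?_) (h1.1 f fun g => by simp [hf])
  have := h1.mono (f := ε • f) (g := f * f + ε ^ 2 • 1) fun x => by
    change ε * f x ≤ f x * f x + ε ^ 2 * 1
    nlinarith [sq_nonneg (f x - ε), sq_nonneg (f x)]
  rw [map_smul, map_add, map_smul, h1.2, smul_eq_mul, smul_eq_mul] at this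
  nlinarith

theorem result (S : Set G) (hS : Expanding S) : ∃ m, IsKMF m ∧ m (ind S) = 1 := by
  classical
  let B : Finset (Dual G) × ℕ → Set G := fun i => {g | ∀ χ ∈ i.1, ‖ev χ g - 1‖ < 1 / (i.2 + 1)}
  have h1 : ∀ i, ∃ m, IsMean m ∧ IsInvariant m ∧ 0 < m (ind (S ∩ B i)) := fun i => by
    by_contra! h
    obtain ⟨x, h1, h2, h3⟩ := hS (B i) (S ∩ B i) ⟨_, _, Nat.one_div_pos_of_nat, rfl⟩
      (le_antisymm (Real.sSup_nonpos (by rintro _ ⟨m, h1, h2, rfl⟩; exact h m h1 h2))
        (Real.sSup_nonneg (by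
          rintro _ ⟨m, h1, -, rfl⟩
          exact h1.1 _ fun x => Set.indicator_nonneg (fun _ _ => zero_le_one) x)))
    exact h3 ⟨h1, h2⟩
  choose m h1 h2 h3 using h1
  have h0 : ∀ (A : Set G) x, 0 ≤ ind A x ∧ ind A x ≤ 1 := fun A x =>
    ⟨Set.indicator_nonneg (fun _ _ => zero_le_one) x, Set.indicator_le_self' (by simp) x⟩
  let ν : _ → (G →ᵇ ℝ) →ₗ[ℝ] ℝ := fun i =>
    (m i (ind (S ∩ B i)))⁻¹ • m i ∘ₗ LinearMap.mulLeft ℝ (ind (S ∩ B i))
  have h4 : ∀ i, IsMean (ν i) := fun i => ⟨fun f hf => mul_nonneg (inv_nonneg.mpr (h3 i).le)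
    ((h1 i).1 _ fun x => mul_nonneg (h0 _ x).1 (hf x)), by simp [ν, (h3 i).ne']⟩
  have h5 : ∀ i A, S ∩ B i ⊆ A → ν i (ind A) = 1 := fun i A hA => by
    have : ind (S ∩ B i) * ind A = ind (S ∩ B i) := ext fun x => by
      have := congrFun (Set.inter_indicator_one (s := S ∩ B i) (t := A) (M₀ := ℝ)) x
      rw [Set.inter_eq_left.mpr hA] at this
      exact this.symm
    simp [ν, this, (h3 i).ne']
  let U := Ultrafilter.of (atTop : Filter (Finset (Dual G) × ℕ))
  have h6 : ∀ f, ∃ L, Tendsto (fun i => ν i f) U (𝓝 L) := fun f => by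
    obtain ⟨L, -, hL⟩ := (isCompact_Icc (a := -‖f‖) (b := ‖f‖)).ultrafilter_le_nhds
      (U.map fun i => ν i f) (le_principal_iff.mpr (mem_map.mpr (univ_mem' fun i =>
        ⟨by simpa [neg_le] using (h4 i).le (f := -f) fun x => (f.neg_norm_le_apply x |> neg_le.mp),
          (h4 i).le f.apply_le_norm⟩)))
    exact ⟨L, hL⟩
  choose L hL using h6
  have h7 : ∀ f c, (∀ᶠ i in atTop, ν i f = c) → L f = c := fun f c h =>
    tendsto_nhds_unique (hL f) (tendsto_const_nhds.congr'
      ((h.filter_mono (Ultrafilter.of_le _)).mono fun _ h => h.symm))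
  refine ⟨⟨⟨L, fun f g => tendsto_nhds_unique (hL _) (by simpa using (hL f).add (hL g))⟩,
    fun c f => tendsto_nhds_unique (hL _) (by simpa using (hL f).const_mul c)⟩,
    ⟨⟨fun f hf => ge_of_tendsto' (hL f) fun i => (h4 i).1 f hf,
      h7 _ _ (.of_forall fun i => (h4 i).2)⟩, fun μ _ _ _ f hf => h7 _ _ (.of_forall fun i => ?_),
      ?_⟩, h7 _ _ (.of_forall fun i => h5 i S Set.inter_subset_left)⟩
  · have h8 : ∀ x, 0 ≤ f x := fun x => by simp [hf]
    refine mul_eq_zero_of_right _ (le_antisymm ?_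
      ((h1 i).1 _ fun x => mul_nonneg (h0 _ x).1 (h8 x)))
    exact ((h1 i).mono fun x => mul_le_of_le_one_left (h8 x) (h0 _ x).2).trans_eq
      (wiener (h1 i) (h2 i) μ f hf)
  · rintro _ ⟨F, ε, hε, rfl⟩
    obtain ⟨n, hn⟩ := exists_nat_one_div_lt hε
    refine one_pos.trans_eq (h7 _ _ ((eventually_ge_atTop (F, n)).mono fun i hi =>
      h5 i _ fun g hg χ hχ => (hg.2 χ (hi.1 hχ)).trans_le (le_trans ?_ hn.le))).symm
    exact Nat.one_div_le_one_div hi.2

end Pool.Agent.Results.MP_49446c_co.Proof
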